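import Pool.Agent.V11226.UE.Final
set_option autoImplicit false

/-!
# Upper embeddability of configurations `v₃` depends on the orientation

We give a connected symmetric configuration `33₃` and two orientations which differ in one block
only, such that the configuration is upper embeddable in the first orientation but not in the
second one.

The configuration. Take the points `0, …, 4` and the blocks `b₁ = {0, 1, 3}`, `b₂ = {0, 2, 4}`,
`b₃ ∋ 1, 2`, `b₄ ∋ 3, 4`, `b₅ ∋ 0`. The four missing incidences of the points `1, 2, 3, 4` with the
blocks `b₃, b₄, b₅, b₅` are replaced by four copies of the Heawood graph with one edge removed. Since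
a copy has `7` points, parity shows that the long face has to return at both ends of each copy, so
the copies cut the graph there. What remains is a subdivision of the theta graph with the two
trivalent vertices `b₁, b₂` (and a pendant part at the point `0`), all other vertices have degree at
most two. So the rotations at `b₁` and `b₂`, which are given by the orientation, decide between one
face and three faces.
-/

namespace Pool.Agent.Results.MP_e7dc11_co.OneOrientationOnly

open Pool.Agent.V11226.UE

/-- **Upper embeddability depends on the orientation.** There is a connected symmetric
configuration `33₃` with two orientations, which differ in one block only, such that the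
configuration is upper embeddable in one of them but not in the other. -/
theorem result : ∃ (X : Config 33) (ω₁ ω₂ : Fin 33 → Equiv.Perm (Fin 33)),
    X.graph.Connected ∧ IsOrientation X ω₁ ∧ IsOrientation X ω₂ ∧
    (∃ j₀, ∀ j, j ≠ j₀ → ω₁ j = ω₂ j) ∧ UpperEmbeddable X ω₁ ∧ ¬ UpperEmbeddable X ω₂ :=
  ⟨X, w1, w2, connected, orient1, orient2, ⟨1, fun j hj => by unfold w1 w2; rw [if_neg hj]⟩,
    upper, not_upper⟩

end Pool.Agent.Results.MP_e7dc11_co.OneOrientationOnly
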